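import Mathlib

/-!
# Regulators and direct factors

A regulator is a `ℚ`-linear map `r : V → B` from a rational vector space to a real one; it is an isomorphism
over `ℝ` if `V ⊗ ℝ → B` is bijective. If `(V, B, r)` is up to a nonzero rational factor a direct factor of
`(V', B', r')`, for example by inverse and direct image for a finite morphism, and `r'` is an isomorphism over
`ℝ`, so is `r`.
-/

set_option autoImplicit false

open scoped TensorProduct

universe u

namespace Pool.Agent.Q49.FC

/-- A regulator: a `ℚ`-linear map from a rational to a real vector space. -/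
structure Regulator where
  /-- motivic cohomology -/
  V : Type u
  /-- Deligne cohomology -/
  B : Type u
  [addV : AddCommGroup V]
  [modV : Module ℚ V]
  [addB : AddCommGroup B]
  [modB : Module ℝ B]
  [modB' : Module ℚ B]
  [tower : IsScalarTower ℚ ℝ B]
  /-- the regulator -/
  r : V →ₗ[ℚ] B

attribute [instance] Regulator.addV Regulator.modV Regulator.addB Regulator.modB Regulator.modB'
  Regulator.tower

/-- `V ⊗ ℝ → B`. -/
noncomputable def Regulator.real (R : Regulator.{u}) : ℝ ⊗[ℚ] R.V →ₗ[ℝ] R.B :=
  LinearMap.liftBaseChange ℝ R.r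

/-- `V ⊗ ℝ → B` is bijective. -/
def Regulator.Iso (R : Regulator.{u}) : Prop := Function.Bijective R.real

/-- Inverse and direct image: `R` is a direct factor of `R'` up to the factor `d`. -/
structure Factor (R R' : Regulator.{u}) where
  /-- inverse image -/
  up : R.V →ₗ[ℚ] R'.V
  /-- direct image -/
  down : R'.V →ₗ[ℚ] R.V
  /-- inverse image -/
  upB : R.B →ₗ[ℝ] R'.B
  /-- direct image -/
  downB : R'.B →ₗ[ℝ] R.B
  /-- the degree -/
  d : ℕ
  pos : 0 < d
  comp : ∀ x, down (up x) = d • x
  compB : ∀ x, downB (upB x) = d • x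
  reg_up : ∀ x, R'.r (up x) = upB (R.r x)
  reg_down : ∀ x, R.r (down x) = downB (R'.r x)

variable {R R' : Regulator.{u}}

lemma real_up (f : Factor R R') (x : ℝ ⊗[ℚ] R.V) :
    R'.real (f.up.baseChange ℝ x) = f.upB (R.real x) := by
  induction x with
  | zero => simp
  | tmul a v => simp [Regulator.real, f.reg_up]
  | add x y hx hy => rw [map_add, map_add, hx, hy, map_add, map_add]

lemma real_down (f : Factor R R') (x : ℝ ⊗[ℚ] R'.V) :
    R.real (f.down.baseChange ℝ x) = f.downB (R'.real x) := by
  induction x with
  | zero => simp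
  | tmul a v => simp [Regulator.real, f.reg_down]
  | add x y hx hy => rw [map_add, map_add, hx, hy, map_add, map_add]

lemma down_up (f : Factor R R') (x : ℝ ⊗[ℚ] R.V) :
    f.down.baseChange ℝ (f.up.baseChange ℝ x) = f.d • x := by
  induction x with
  | zero => simp
  | tmul a v =>
    rw [LinearMap.baseChange_tmul, LinearMap.baseChange_tmul, f.comp, TensorProduct.tmul_smul]
  | add x y hx hy => rw [map_add, map_add, hx, hy, smul_add]

lemma eq_zero_of_nsmul {M : Type*} [AddCommGroup M] [Module ℝ M] {d : ℕ} (hd : 0 < d) {x : M}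
    (h : d • x = 0) : x = 0 := by
  rw [← Nat.cast_smul_eq_nsmul ℝ] at h
  rcases smul_eq_zero.mp h with h1 | h1
  · exact absurd (Nat.cast_eq_zero.mp h1) hd.ne'
  · exact h1

/-- Direct factors of isomorphisms are isomorphisms. -/
theorem Iso.of_factor (f : Factor R R') (h : R'.Iso) : R.Iso := by
  constructor
  · refine (injective_iff_map_eq_zero _).mpr fun x hx => ?_
    have h1 : R'.real (f.up.baseChange ℝ x) = 0 := by rw [real_up, hx, map_zero]
    have h2 : f.up.baseChange ℝ x = 0 := (injective_iff_map_eq_zero _).mp h.1 _ h1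
    have h3 := down_up f x
    rw [h2, map_zero] at h3
    exact eq_zero_of_nsmul f.pos h3.symm
  · intro y
    obtain ⟨x, hx⟩ := h.2 (f.upB y)
    refine ⟨(f.d : ℝ)⁻¹ • f.down.baseChange ℝ x, ?_⟩
    rw [map_smul, real_down, hx, f.compB, ← Nat.cast_smul_eq_nsmul ℝ, smul_smul,
      inv_mul_cancel₀ (Nat.cast_ne_zero.mpr f.pos.ne'), one_smul]

/-- The dimension of `V` is that of `B`, if the regulator is an isomorphism. -/
theorem Iso.finrank_eq (h : R.Iso) : Module.finrank ℚ R.V = Module.finrank ℝ R.B := by
  rw [← (LinearEquiv.ofBijective _ h).finrank_eq]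
  exact Module.finrank_baseChange.symm

/-- Composition of direct factors. -/
def Factor.trans {R'' : Regulator.{u}} (f : Factor R R') (g : Factor R' R'') : Factor R R'' where
  up := g.up.comp f.up
  down := f.down.comp g.down
  upB := g.upB.comp f.upB
  downB := f.downB.comp g.downB
  d := f.d * g.d
  pos := Nat.mul_pos f.pos g.pos
  comp x := by
    simp only [LinearMap.comp_apply, g.comp, map_nsmul, f.comp, smul_smul]
    rw [mul_comm]
  compB x := by
    simp only [LinearMap.comp_apply, g.compB, map_nsmul, f.compB, smul_smul]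
    rw [mul_comm]
  reg_up x := by simp only [LinearMap.comp_apply, g.reg_up, f.reg_up]
  reg_down x := by simp only [LinearMap.comp_apply, f.reg_down, g.reg_down]

/-- The image of the regulator is a `ℚ`-structure: the inclusion of the image induces a bijection after
tensoring with `ℝ`. -/
def Regulator.Structure (R : Regulator.{u}) : Prop :=
  Function.Bijective (LinearMap.liftBaseChange ℝ (LinearMap.range R.r).subtype)

lemma real_eq (R : Regulator.{u}) (x : ℝ ⊗[ℚ] R.V) : R.real x =
    LinearMap.liftBaseChange ℝ (LinearMap.range R.r).subtype (R.r.rangeRestrict.baseChange ℝ x) := by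
  induction x with
  | zero => simp
  | tmul a v => simp [Regulator.real]
  | add x y hx hy => rw [map_add, map_add, map_add, hx, hy]

/-- `V ⊗ ℝ → B` is bijective if and only if the regulator is injective and its image is a
`ℚ`-structure. -/
theorem iso_iff (R : Regulator.{u}) :
    R.Iso ↔ Function.Injective R.r ∧ R.Structure := by
  have hs : Function.Surjective (R.r.rangeRestrict.baseChange ℝ) :=
    LinearMap.lTensor_surjective ℝ R.r.surjective_rangeRestrict
  constructor
  · intro h
    have h1 : Function.Injective R.r := by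
      refine (injective_iff_map_eq_zero _).mpr fun v hv => ?_
      have h2 : R.real ((1 : ℝ) ⊗ₜ[ℚ] v) = 0 := by simp [Regulator.real, hv]
      have h3 := (injective_iff_map_eq_zero _).mp h.1 _ h2
      have h4 : (1 : ℝ) ⊗ₜ[ℚ] v = (1 : ℝ) ⊗ₜ[ℚ] (0 : R.V) := by rw [h3, TensorProduct.tmul_zero]
      have h6 := Module.Flat.rTensor_preserves_injective_linearMap (M := R.V)
        (Algebra.linearMap ℚ ℝ) (algebraMap ℚ ℝ).injective
      have h7 := h6.comp (TensorProduct.lid ℚ R.V).symm.injective
      apply h7
      simpa using h4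
    refine ⟨h1, ?_, ?_⟩
    · intro x y hxy
      obtain ⟨a, rfl⟩ := hs x
      obtain ⟨b, rfl⟩ := hs y
      rw [← real_eq, ← real_eq] at hxy
      rw [h.1 hxy]
    · intro y
      obtain ⟨x, hx⟩ := h.2 y
      exact ⟨_, by rw [← real_eq]; exact hx⟩
  · rintro ⟨h1, h2⟩
    have hi : Function.Injective (R.r.rangeRestrict.baseChange ℝ) :=
      Module.Flat.lTensor_preserves_injective_linearMap (M := ℝ) R.r.rangeRestrict
        (R.r.injective_rangeRestrict_iff.mpr h1)
    constructor
    · intro x y hxy
      rw [real_eq, real_eq] at hxy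
      exact hi (h2.1 hxy)
    · intro y
      obtain ⟨z, hz⟩ := h2.2 y
      obtain ⟨x, rfl⟩ := hs z
      exact ⟨x, by rw [real_eq]; exact hz⟩

end Pool.Agent.Q49.FC
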