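import Pool.Agent.Q49.FC.Basic

/-!
# Regulators of curves over number fields and étale coverings of Fermat curves
-/

set_option autoImplicit false

universe u

namespace Pool.Agent.Q49.FC

/-- Number fields, smooth projective geometrically irreducible curves over them, regulators. -/
structure Curves where
  /-- number fields -/
  Fld : Type
  /-- the degree over `ℚ` -/
  deg : Fld → ℕ
  /-- the rational field -/
  Q : Fld
  /-- inclusion (embedding) of number fields -/
  Le : Fld → Fld → Prop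
  /-- smooth projective geometrically irreducible curves over a number field -/
  Curve : Fld → Type
  /-- the genus -/
  genus : ∀ {k : Fld}, Curve k → ℕ
  /-- the regulator `H^2_M(C, ℚ(2))_ℤ → Hom(H_1(C(ℂ), ℤ)^-, ℝ)` -/
  reg : ∀ {k : Fld}, Curve k → Regulator.{u}
  /-- `IsFermatCover N C`: the curve `C` over `L` is a finite étale Galois covering of the Fermat curve
  `x^N + y^N = 1` over `L`, and a Galois covering of the line by `x^N` -/
  IsFermatCover : ∀ {L : Fld}, ℕ → Curve L → Prop

/-- The known facts. -/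
structure IsCurves (D : Curves.{u}) : Prop where
  degQ : D.deg D.Q = 1
  /-- the rank of `H_1(C(ℂ), ℤ)^-` -/
  dim : ∀ (k : D.Fld) (C : D.Curve k), Module.finrank ℝ (D.reg C).B = D.genus C * D.deg k
  /-- Belyi's theorem and Abhyankar's lemma, see below; inverse and direct image -/
  belyi : ∀ (k : D.Fld) (C : D.Curve k) (M : ℕ) (L₀ : D.Fld), 0 < M →
    ∃ (L : D.Fld) (N : ℕ) (C' : D.Curve L), D.Le L₀ L ∧ M ∣ N ∧ 0 < N ∧ D.IsFermatCover N C' ∧
      Nonempty (Factor (D.reg C) (D.reg C'))
  /-- Weil restriction; every abelian variety over `ℚ` is a quotient of a Jacobian (Matsusaka) -/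
  rational : ∀ (k : D.Fld) (C : D.Curve k), ∃ Y : D.Curve D.Q,
    Nonempty (Factor (D.reg C) (D.reg Y))

variable {D : Curves.{u}}

/-- The statements on all curves over number fields, all curves over `ℚ`, and the Fermat coverings, with `N`
divisible by `M` and over fields containing `L₀`, are equivalent. -/
theorem curves_tfae (h : IsCurves D) : List.TFAE [
    ∀ (k : D.Fld) (C : D.Curve k), (D.reg C).Iso,
    ∀ Y : D.Curve D.Q, (D.reg Y).Iso,
    ∀ (L : D.Fld) (N : ℕ) (C' : D.Curve L), 0 < N → D.IsFermatCover N C' → (D.reg C').Iso,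
    ∃ (M : ℕ) (L₀ : D.Fld), 0 < M ∧ ∀ (L : D.Fld) (N : ℕ) (C' : D.Curve L), 0 < N →
      D.Le L₀ L → M ∣ N → D.IsFermatCover N C' → (D.reg C').Iso] := by
  tfae_have 1 → 2 := fun h1 Y => h1 _ Y
  tfae_have 2 → 1 := by
    intro h2 k C
    obtain ⟨Y, ⟨f⟩⟩ := h.rational k C
    exact Iso.of_factor f (h2 Y)
  tfae_have 1 → 3 := fun h1 L _ C' _ _ => h1 L C'
  tfae_have 3 → 4 := fun h3 => ⟨1, D.Q, one_pos, fun L N C' hN _ _ hC => h3 L N C' hN hC⟩
  tfae_have 4 → 1 := by
    rintro ⟨M, L₀, hM, h4⟩ k C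
    obtain ⟨L, N, C', h1, h2, h3, h5, ⟨f⟩⟩ := h.belyi k C M L₀ hM
    exact Iso.of_factor f (h4 L N C' h3 h1 h2 h5)
  tfae_finish

end Pool.Agent.Q49.FC
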